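import Pool.Agent.H38.UZ.TarZ

/-!
# MP_f6fd33_lc, RT: there is a rich tower
-/

set_option linter.unusedVariables false

open Ordinal Order Set
open scoped ZFSet

namespace SE.UZ

open SF

theorem pf_RT (hPAS : T_PAS) (hAA : T_AA) (hBJ : T_BJ) (hBR : T_BR) : T_RT := by
  intro D κ b am ok
  have hJ := hBJ D am.ok
  have hE : (∅ : V) ∈ D.H := hJ.2.1 κ am.kH am.zero
  have hP : b.Pas D κ ∅ ∅ ∅ κ ∅ ∅ :=
    { h := hE
      n := hJ.2.2.1 ∅ hE
      z := hE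
      t := fun v hv => absurd hv (ZFSet.notMem_empty v)
      a := fun v hv => absurd hv (ZFSet.notMem_empty v)
      v := fun h => absurd h (ZFSet.mem_irrefl κ) }
  obtain ⟨T, hT, -⟩ := hPAS D κ b am ok ∅ ∅ ∅ κ ∅ ∅ hP
  exact ⟨T, hT⟩

end SE.UZ
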